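import Pool.Agent.Results.MP_a1f59e_nt.BoxesAlongProgressions
import Pool.Agent.N694.BR.Abs

/-!
# Almost all vectors of shifts in a Bohr set: prime tuples along narrow arithmetic progressions

The question is whether for every `l` there is a progression `m, m + D, ..., m + (l - 1) D` of primes such
that the numbers `m + j D + 2` are prime too. Here `2` is replaced by vectors `h = (h_1, ..., h_k)` of shifts.

For all `k`, `s` and `ε > 0` there are `d` and `ρ, δ > 0` such that for all `q ≥ 1` and `b` coprime to `q`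
there are `M` and `n₀` such that for EVERY multiple `N` of `M` and every `H ≥ n₀` there are real numbers
`θ_1, ..., θ_d'`, `d' ≤ d`, and a radius `ρ ≤ r ≤ 1` such that the Bohr set

  `B = { t : |t| ≤ H, |exp (2 π i θ_j t) - 1| ≤ r for all j }`

has at least `δ H` elements, and for all but at most `ε |B|^k` of the vectors `y ∈ B^k` the following holds
for every nonsingular integer matrix `T` with entries at most `s` in absolute value, every length `l` and
every radius `R`. Let `(h_1, ..., h_k) = N T y`. Then for arbitrarily large `x` and every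
`J ⊆ {0, ..., k}` there is a difference `1 ≤ D ≤ (log x)^C` such that for at least `x / (log x)^C` of the
`m ≤ x`, each of the `l` numbers `n = m, m + D, ..., m + (l - 1) D` is `≡ b (mod q)`, of the numbers
`n, n + h_1, ..., n + h_k` exactly those with index in `J` are prime, and all primes at distance at most `R`
from `n` are `≡ b (mod q)`.

So (`J = {0, ..., k}`, `k = 1`) in such a Bohr set almost all shifts `h` have arbitrarily long narrow
progressions of primes `n` with `n + N h` prime; and for `k` shifts the proportion of the good vectors in the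
box in the starting result `BoxesAlongProgressions`, `(k + 1) (5/18)^k`, is replaced by `1 - ε`.

Proof: almost cliques for patterns along narrow progressions (`Pool.Agent.N694.NB.cleN`) and the theorem on
returns in Bohr sets (`Pool.Agent.N694.BR.bohr`), both in the starting files.
-/

set_option autoImplicit false

namespace Pool.Agent.Results.MP_a1f59e_nt.BohrSetsAlongProgressions

open Finset Filter
open Pool.Agent.Results.MP_a1f59e_nt.BoxesAlongProgressions (Pattern Good good_of)

open Classical in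
/-- the Bohr set of the integers `|t| ≤ H` with `|exp (2πiθt) - 1| ≤ r` for all `θ ∈ Θ` -/
noncomputable def bohrSet (Θ : Finset ℝ) (r : ℝ) (H : ℕ) : Finset ℤ :=
  (Icc (-(H : ℤ)) H).filter (fun t => ∀ θ ∈ Θ,
    ‖Complex.exp (2 * Real.pi * Complex.I * θ * t) - 1‖ ≤ r)

/-- the set of the vectors with `k` coordinates in `B` -/
def vectors (k : ℕ) (B : Finset ℤ) : Finset (Fin k → ℤ) := Fintype.piFinset (fun _ => B)

/-- **Bohr sets of shifts, prime tuples along narrow progressions.** -/
theorem result (k s : ℕ) (ε : ℝ) (hε : 0 < ε) : ∃ (d : ℕ) (ρ δ : ℝ), 0 < ρ ∧ 0 < δ ∧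
    ∀ (q : ℕ) (b : ℤ), 1 ≤ q → IsCoprime (q : ℤ) b → ∃ M n₀ : ℕ, 1 ≤ M ∧
      ∀ N : ℕ, 1 ≤ N → M ∣ N → ∀ H : ℕ, n₀ ≤ H → ∃ (Θ : Finset ℝ) (r : ℝ),
        Θ.card ≤ d ∧ ρ ≤ r ∧ r ≤ 1 ∧ δ * H ≤ (bohrSet Θ r H).card ∧
        ∃ 𝒢 ⊆ vectors k (bohrSet Θ r H),
          ((vectors k (bohrSet Θ r H) \ 𝒢).card : ℝ) ≤ ε * ((bohrSet Θ r H).card : ℝ) ^ k ∧
          ∀ y ∈ 𝒢, ∀ T : Matrix (Fin k) (Fin k) ℤ, (∀ i j, |T i j| ≤ s) → T.det ≠ 0 →
            Good q b (fun i => N * (T.mulVec y) i) := by
  obtain ⟨d, ρ, δ, ε', hρ, hδ, hε', h⟩ := Pool.Agent.N694.BR.bohr k s ε hε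
  refine ⟨d, ρ, δ, hρ, hδ, fun q b hq hb => ?_⟩
  obtain ⟨M, n₀, hM, h1⟩ := h _ (Pool.Agent.N694.NB.cleN k ε' hε' q hq b hb)
  refine ⟨M, n₀, hM, fun N hN hMN H hH => ?_⟩
  obtain ⟨Θ, r, g1, g2, g3, g4, 𝒢, g5, g6, g7⟩ := h1 N hN hMN H hH
  refine ⟨Θ, r, g1, g2, g3, g4, 𝒢, g5, ?_, fun y hy T hT hdet => good_of (g7 y hy T hT hdet).2⟩
  refine le_trans (le_of_eq ?_) g6
  congr 2

end Pool.Agent.Results.MP_a1f59e_nt.BohrSetsAlongProgressions
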