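import Pool.Agent.Results.MP_a1f59e_nt.BoxesAlongProgressions
import Pool.Agent.T63.OP.Eq

/-!
# Linear equations in vectors of shifts: prime tuples along narrow arithmetic progressions

The question is whether for every `l` there is a progression `m, m + D, ..., m + (l - 1) D` of primes such
that the numbers `m + j D + 2` are prime too. Here `2` is replaced by vectors of shifts. Let `b` be coprime to
`q ≥ 1`. A vector `h` of `k` integers is good (`Good q b h`) if for every length `l` and every radius `R` the
following holds: for arbitrarily large `x` and for every `J ⊆ {0, ..., k}` there is a difference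
`1 ≤ D ≤ (log x)^C` such that for at least `x / (log x)^C` of the `m ≤ x`, each of the `l` numbers
`n = m, m + D, ..., m + (l - 1) D` is `≡ b (mod q)`, of the numbers `n, n + h_1, ..., n + h_k` exactly those
with index in `J` are prime, and all primes at distance at most `R` from `n` are `≡ b (mod q)`.

Theorem. Let `p ≥ 2` with `(k + 1) (18 - 5 p) < 18` (every `p ≥ 4` for all `k`; `p = 3` for `k ≤ 4`, `p = 2`
for `k = 1`) and let `w_1, ..., w_p` be nonzero integers. There are `N ≥ 1`, `B` and `c > 0` such that for all
`T ≥ B` and ALL vectors `v` of `k` multiples of `N` with `B |v_j| ≤ T`, the equation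
`w_1 h^1 + ... + w_p h^p = v` has at least `c T ^ ((p - 1) k)` solutions (the right order of magnitude) in good
vectors `h^i` with coordinates in `(-T, T)`. For `k = 1`, `p = 2`, `w = (1, 1)`: every multiple of `N` is the
sum (and with `w = (1, -1)` the difference) of two shifts `h` for which there are arbitrarily long narrow
progressions of primes `n` with `n + h` prime, in a positive proportion of all possible ways.

Proof: almost cliques for patterns along narrow progressions (`Pool.Agent.N694.NB.cleN`) and the theorem on
linear equations in the differences of almost cliques (`Pool.Agent.N646.SF.sfgT`), both in the starting files.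
-/

set_option autoImplicit false

namespace Pool.Agent.Results.MP_a1f59e_nt.LinearEquationsAlongProgressions

open Finset Filter
open Pool.Agent.Results.MP_a1f59e_nt.BoxesAlongProgressions (Pattern Good good_of)

open Classical in
/-- the solutions of `w_1 h^1 + ... + w_p h^p = v` in vectors `h^i` with coordinates in `(-T, T)` with the
property `g` -/
noncomputable def solutions {k p : ℕ} (g : (Fin k → ℤ) → Prop) (w : Fin p → ℤ) (v : Fin k → ℤ) (T : ℕ) :
    Finset (Fin p → Fin k → ℤ) :=
  (Fintype.piFinset (fun _ : Fin p => Fintype.piFinset (fun _ : Fin k => Ioo (-(T : ℤ)) T))).filter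
    (fun h => (∀ i, g (h i)) ∧ ∀ j, ∑ i, w i * h i j = v j)

/-- **Linear equations in good vectors of shifts.** -/
theorem result (k p : ℕ) (w : Fin p → ℤ) (hw : ∀ i, w i ≠ 0) (hp : 2 ≤ p)
    (hk : ((k : ℤ) + 1) * (18 - 5 * p) < 18) (q : ℕ) (hq : 1 ≤ q) (b : ℤ)
    (hb : IsCoprime (q : ℤ) b) :
    ∃ N B : ℕ, 1 ≤ N ∧ 1 ≤ B ∧ ∃ c : ℝ, 0 < c ∧ ∀ T : ℕ, B ≤ T →
      ∀ v : Fin k → ℤ, (∀ j, (N : ℤ) ∣ v j) → (∀ j, B * |v j| ≤ T) →
        c * (T : ℝ) ^ ((p - 1) * k) ≤ ((solutions (Good q b) w v T).card : ℝ) := by
  classical
  obtain ⟨ε', hε', h⟩ := Pool.Agent.T63.OP.equations k p w hw hp hk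
  obtain ⟨N, B, hN, hB, c, hc, h1⟩ := h _ (Pool.Agent.N694.NB.cleN k ε' hε' q hq b hb)
  refine ⟨N, B, hN, hB, c, hc, fun T hT v hv1 hv2 => (h1 T hT v hv1 hv2).trans ?_⟩
  rw [Nat.cast_le]
  apply card_le_card
  intro y hy
  rw [mem_filter] at hy
  rw [solutions, mem_filter]
  exact ⟨hy.1, fun i => good_of (hy.2.1 i), hy.2.2⟩

end Pool.Agent.Results.MP_a1f59e_nt.LinearEquationsAlongProgressions
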