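import Pool.Agent.Helper85.SZ.Rich

/-!
# Szemerédi's theorem relative to prime tuples whose shifts are near values of real polynomials

The question is whether the primes `p` for which `p + 2` is a prime contain arbitrarily long arithmetic progressions. Here
the pairs `p, p + 2` are replaced by the tuples `p, p + a_1, ..., p + a_k` with large shifts `a_i` from very sparse families.
Let `F_1, ..., F_k` be polynomials with real coefficients in `n_1, ..., n_k` (independent) variables, of degrees `d_i ≥ 1`, and
let `N_i ^ d_i` be about `X`, up to powers of `log X`. For all the `k`-tuples `(x_1, ..., x_k)` of integer points of the boxes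
with the side lengths `2 N_i` with a proportion of at most `(log X)^(-U)` of exceptions, ALL the admissible tuples of shifts
`a_1, ..., a_k ≥ 0` with `|a_i - F_i(x_i)| ≤ (log X)^T` have the following property: the primes `p ≤ X` for which all the
`p + a_i` are primes satisfy Szemerédi's theorem, that is every subset with at least the proportion `δ` of these primes contains
an arithmetic progression of `l` terms, even one with a difference of at most `(log X)^B`, and `B` depends only on `k`, `l`
and `δ`.

Proof. The integer parts of the values of `F_i` on the box have nearly minimal additive energy (`energy_box` in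
`Helper85/RP/Slice`). This gives the formula of Hardy and Littlewood for the number of the primes (`N469/PT`, starting files;
`Helper85/RP/TupR`), and it shows that the shifts are well spaced, up to few exceptions (`Helper85/SZ/Spread`). For well spaced
shifts the function `x (x + a_1) ⋯ (x + a_k)`, stripped of few primes, satisfies the hypotheses of the relative Szemerédi
theorem `engX_all` for sifted sets (`K3h89/SX`, starting files): the common prime factors of its values at `x` and `x + h` are
small on average over the small `h` (`Helper85/SZ/Bad`), and the sieve product is bounded by the singular series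
(`Helper85/SZ/Sys`).
-/

set_option autoImplicit false

namespace Pool.Agent.Results.MP_a1f59e_nt.RealPolynomialDifferences

open Finset

/-- There is no local obstruction to infinitely many prime tuples `(n, n + a 1, ..., n + a k)`. -/
def Admissible {k : ℕ} (a : Fin k → ℕ) : Prop := ∀ p : ℕ, p.Prime → ∃ r : ℕ, ¬ p ∣ r ∧ ∀ i, ¬ p ∣ r + a i

/-- The primes `p ≤ X` such that all `p + a i` are primes. -/
def primes {k : ℕ} (a : Fin k → ℕ) (X : ℕ) : Finset ℕ := (Icc 1 X).filter (fun p => p.Prime ∧ ∀ i, (p + a i).Prime)

/-- There are at least `c X / log ^ (k + 1) X` primes `p ≤ X` such that all `p + a i` are primes, and every set `S` which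
contains at least the proportion `δ` of these primes contains an arithmetic progression of `l` terms with a difference
`1 ≤ d ≤ (log X)^B`. -/
def Rich {k : ℕ} (c δ : ℝ) (l B X : ℕ) (a : Fin k → ℕ) : Prop :=
  c * (X / Real.log X ^ (k + 1)) ≤ (primes a X).card ∧
  ∀ S : Finset ℕ, S ⊆ primes a X → δ * (primes a X).card ≤ S.card →
    ∃ n d : ℕ, 1 ≤ d ∧ (d : ℝ) ≤ Real.log X ^ B ∧ ∀ i < l, n + i * d ∈ S

/-- the value of a real polynomial at an integer point -/
noncomputable def val {n : ℕ} (F : MvPolynomial (Fin n) ℝ) (x : Fin n → ℤ) : ℝ :=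
  MvPolynomial.eval (fun i => (x i : ℝ)) F

/-- the `k`-tuples of integer points `x_i` whose coordinates have absolute values of at most `N_i` -/
def boxes {k : ℕ} (n N : Fin k → ℕ) : Set (∀ i : Fin k, Fin (n i) → ℤ) := {x | ∀ i j, |x i j| ≤ N i}

/-- the number of the elements `x` of `boxes n N` for which some admissible tuple of shifts `a_i ≥ 0` with
`|a_i - F_i(x_i)| ≤ R` does not have the property `Rich` -/
noncomputable def exceptions {k : ℕ} {n : Fin k → ℕ} (c δ : ℝ) (l B X : ℕ) (R : ℝ)
    (F : ∀ i, MvPolynomial (Fin (n i)) ℝ) (N : Fin k → ℕ) : ℕ :=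
  Nat.card {x : ∀ i : Fin k, Fin (n i) → ℤ // x ∈ boxes n N ∧
    ∃ a : Fin k → ℕ, (∀ i, |(a i : ℝ) - val (F i) (x i)| ≤ R) ∧ Admissible a ∧ ¬ Rich c δ l B X a}

lemma card_boxes {k : ℕ} (n N : Fin k → ℕ) : (Nat.card (boxes n N) : ℝ) =
    ∏ i, ((Pool.Agent.Helper85.RP.box (n i) (N i)).card : ℝ) := by
  classical
  have h1 : Nat.card (boxes n N) = (Fintype.piFinset (fun i => Pool.Agent.Helper85.RP.box (n i) (N i))).card := by
    rw [← Fintype.card_coe, ← Nat.card_eq_fintype_card]
    apply Nat.card_congr
    apply Equiv.subtypeEquivRight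
    intro x
    rw [Fintype.mem_piFinset]
    simp only [Pool.Agent.Helper85.RP.mem_box]
    rfl
  rw [h1, Fintype.card_piFinset]
  push_cast
  rfl

open Classical in
lemma exceptions_le {k : ℕ} {n : Fin k → ℕ} (c δ : ℝ) (l B X : ℕ) (R : ℝ) (F : ∀ i, MvPolynomial (Fin (n i)) ℝ)
    (N : Fin k → ℕ) : exceptions c δ l B X R F N ≤
      ((Fintype.piFinset (fun i => Pool.Agent.Helper85.RP.box (n i) (N i))).filter (fun x => ∃ a : Fin k → ℕ,
        (∀ i, |(a i : ℝ) - MvPolynomial.eval (fun j => (x i j : ℝ)) (F i)| ≤ R) ∧
        Pool.Agent.H373R2.T7.Admissible (fun i => (a i : ℤ)) ∧ ¬ Pool.Agent.Helper85.SZ.Rich c δ l B X a)).card := by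
  unfold exceptions
  rw [← Fintype.card_coe, ← Nat.card_eq_fintype_card]
  apply Nat.card_le_card_of_injective (fun x => ⟨x.1, by
    rw [mem_filter, Fintype.mem_piFinset]
    obtain ⟨hx, a, ha, hadm, hr⟩ := x.2
    refine ⟨fun i => Pool.Agent.Helper85.RP.mem_box.2 fun j => hx i j, a, ha, fun p hp => ?_, hr⟩
    obtain ⟨r, h1, h2⟩ := hadm p hp
    exact ⟨r, by exact_mod_cast h1, fun i => by
      have := h2 i
      dsimp only
      exact_mod_cast this⟩⟩)
  intro x y hxy
  simp only [Subtype.mk.injEq] at hxy
  exact Subtype.ext hxy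

/-- **Szemerédi's theorem relative to prime tuples whose shifts are near values of real polynomials.** For `k ≥ 1` there is
`c > 0`, and for all `l` and `δ > 0` there is `B`, such that: for `i = 1, ..., k` let `Φ_i ≠ 0` be a form of the degree
`d_i ≥ 1` in `n_i` variables with real coefficients. For `X ≥ X₀`, all the `N_i` with `X ≤ (log X)^K N_i ^ d_i`, and all the
real polynomials `G_i` of total degree less than `d_i` for which `F_i = Φ_i + G_i` is at most `B₁ X` in absolute value at the
integer points `x_i` with coordinates of absolute values of at most `N_i`: with a proportion of at most `(log X)^(-U)` of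
exceptions, for all the `k`-tuples `(x_1, ..., x_k)` of such points all the admissible tuples of shifts `a_i ≥ 0` with
`|a_i - F_i(x_i)| ≤ (log X)^T` have the property `Rich`: there are at least `c X / log ^ (k + 1) X` primes `p ≤ X` for which all
the `p + a_i` are primes, and every subset with at least the proportion `δ` of these primes contains an arithmetic progression
of `l` terms with a difference of at most `(log X)^B`. -/
theorem result (k : ℕ) (hk : 1 ≤ k) : ∃ c : ℝ, 0 < c ∧ ∀ (l : ℕ) (δ : ℝ), 0 < δ → ∃ B : ℕ,
    ∀ (n d : Fin k → ℕ), (∀ i, 1 ≤ d i) → ∀ Φ : ∀ i, MvPolynomial (Fin (n i)) ℝ, (∀ i, (Φ i).IsHomogeneous (d i)) →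
    (∀ i, Φ i ≠ 0) → ∀ K T U B₁ : ℕ, ∃ X₀ : ℕ, ∀ X : ℕ, X₀ ≤ X →
      ∀ N : Fin k → ℕ, (∀ i, (X : ℝ) ≤ Real.log X ^ K * (N i : ℝ) ^ d i) →
      ∀ G : ∀ i, MvPolynomial (Fin (n i)) ℝ, (∀ i, (G i).totalDegree < d i) →
      (∀ x ∈ boxes n N, ∀ i, |val (Φ i + G i) (x i)| ≤ B₁ * X) →
      (exceptions c δ l B X (Real.log X ^ T) (fun i => Φ i + G i) N : ℝ) ≤
        (Nat.card (boxes n N) : ℝ) / Real.log X ^ U := by
  classical
  obtain ⟨c, hc, h⟩ := Pool.Agent.Helper85.SZ.near_rich k hk
  refine ⟨c, hc, fun l δ hδ => ?_⟩
  obtain ⟨B, hB⟩ := h l δ hδ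
  refine ⟨B, fun n d hd Φ hΦ hΦ0 K T U B₁ => ?_⟩
  obtain ⟨X₀, h0⟩ := hB n d hd Φ hΦ hΦ0 K T U B₁
  refine ⟨X₀, fun X hX N hN G hG hb => ?_⟩
  rw [card_boxes]
  have h1 := h0 X hX N hN G hG (fun i x hx => by
    have h2 := hb (fun j => if h : i = j then h ▸ x else fun _ => 0) (by
      intro j l
      by_cases h : i = j
      · subst h
        simp only [dite_true]
        exact Pool.Agent.Helper85.RP.mem_box.1 hx l
      · simp only [h, dite_false, abs_zero]
        exact Nat.cast_nonneg _) i
    simp only [dite_true] at h2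
    exact h2)
  exact (Nat.cast_le.2 (exceptions_le c δ l B X (Real.log X ^ T) (fun i => Φ i + G i) N)).trans h1

end Pool.Agent.Results.MP_a1f59e_nt.RealPolynomialDifferences
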